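import Mathlib

/-!
# Mixed differences of powers, and the product inequality for Hilbert cubes in the squares

`mdiff [b₁,…,b_m] f x` is the mixed difference `Δ_{b₁} ⋯ Δ_{b_m} f (x)`.
-/

namespace Pool.H10.HC

/-- The mixed difference of `f` in the directions of the list, at `x`. -/
noncomputable def mdiff : List ℝ → (ℝ → ℝ) → ℝ → ℝ
  | [], f, x => f x
  | b :: l, f, x => mdiff l f (x + b) - mdiff l f x

lemma mdiff_hasDerivAt (l : List ℝ) (hl : ∀ b ∈ l, 0 < b) (f f' : ℝ → ℝ)
    (hf : ∀ y, 0 < y → HasDerivAt f (f' y) y) :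
    ∀ x, 0 < x → HasDerivAt (mdiff l f) (mdiff l f' x) x := by
  induction l with
  | nil => intro x hx; simpa [mdiff] using hf x hx
  | cons b l ih =>
    intro x hx
    have hb : 0 < b := hl b (by simp)
    have ih' := ih (fun c hc => hl c (by simp [hc]))
    have h1 : HasDerivAt (fun y => mdiff l f (y + b)) (mdiff l f' (x + b)) x := by
      have h := ih' (x + b) (by linarith)
      exact HasDerivAt.comp_add_const x b h
    have h2 := ih' x hx
    have := h1.sub h2
    exact this

lemma mdiff_const_mul (l : List ℝ) (c : ℝ) (f : ℝ → ℝ) (x : ℝ) :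
    mdiff l (fun y => c * f y) x = c * mdiff l f x := by
  induction l generalizing x with
  | nil => simp [mdiff]
  | cons b l ih => simp only [mdiff, ih]; ring

/-- Mean value theorem for mixed differences of powers. -/
lemma mdiff_rpow (l : List ℝ) (hl : ∀ b ∈ l, 0 < b) (α x : ℝ) (hx : 0 < x) :
    ∃ ξ, x ≤ ξ ∧ mdiff l (fun y => y ^ α) x
      = (∏ j ∈ Finset.range l.length, (α - j)) * l.prod * ξ ^ (α - l.length) := by
  induction l generalizing α x with
  | nil => exact ⟨x, le_rfl, by simp [mdiff]⟩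
  | cons b l ih =>
    have hb : 0 < b := hl b (by simp)
    have hl' : ∀ c ∈ l, 0 < c := fun c hc => hl c (by simp [hc])
    set h : ℝ → ℝ := mdiff l (fun y => y ^ α) with hh
    have hder : ∀ y, 0 < y → HasDerivAt h (α * mdiff l (fun y => y ^ (α - 1)) y) y := by
      intro y hy
      have := mdiff_hasDerivAt l hl' (fun y => y ^ α) (fun y => α * y ^ (α - 1))
        (fun z hz => Real.hasDerivAt_rpow_const (Or.inl hz.ne')) y hy
      rwa [mdiff_const_mul] at this
    obtain ⟨y, hy, hyy⟩ := exists_hasDerivAt_eq_slope h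
      (fun y => α * mdiff l (fun y => y ^ (α - 1)) y) (by linarith : x < x + b)
      (fun z hz => (hder z (by linarith [hz.1])).continuousAt.continuousWithinAt)
      (fun z hz => hder z (by linarith [hz.1]))
    obtain ⟨ξ, hξ, hξ'⟩ := ih hl' (α - 1) y (by linarith [hy.1])
    refine ⟨ξ, by linarith [hy.1], ?_⟩
    have e1 : mdiff (b :: l) (fun y => y ^ α) x = b * (α * mdiff l (fun y => y ^ (α - 1)) y) := by
      have hbb : x + b - x = b := by ring
      rw [hbb] at hyy
      rw [hyy]
      simp only [mdiff, hh]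
      field_simp
    rw [e1, hξ']
    have e2 : (∏ j ∈ Finset.range (b :: l).length, (α - j))
        = α * ∏ j ∈ Finset.range l.length, (α - 1 - j) := by
      rw [List.length_cons, Finset.prod_range_succ']
      rw [mul_comm]
      congr 1
      · simp
      · apply Finset.prod_congr rfl
        intro j _
        push_cast
        ring
    rw [e2, List.prod_cons, List.length_cons]
    have e3 : α - 1 - (l.length : ℝ) = α - ((l.length + 1 : ℕ) : ℝ) := by push_cast; ring
    rw [e3]
    ring

/-- All the numbers `x + (sub-sum of the list)` are squares of integers. -/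
def AllSq : List ℝ → ℝ → Prop
  | [], x => ∃ n : ℤ, x = (n : ℝ) ^ 2
  | b :: l, x => AllSq l x ∧ AllSq l (x + b)

lemma mdiff_sqrt_int (l : List ℝ) (x : ℝ) (h : AllSq l x) :
    ∃ n : ℤ, mdiff l (fun y => y ^ (1 / 2 : ℝ)) x = n := by
  induction l generalizing x with
  | nil =>
    obtain ⟨n, rfl⟩ := h
    refine ⟨|n|, ?_⟩
    simp only [mdiff]
    rw [← Real.sqrt_eq_rpow, Real.sqrt_sq_eq_abs]
    simp
  | cons b l ih =>
    obtain ⟨h1, h2⟩ := h
    obtain ⟨n1, e1⟩ := ih x h1
    obtain ⟨n2, e2⟩ := ih (x + b) h2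
    refine ⟨n2 - n1, ?_⟩
    simp only [mdiff]
    rw [e1, e2]
    push_cast
    ring

/-- `1 · 3 · 5 ⋯ (2m-3) / 2^m` as the absolute value of `∏_{j<m} (1/2 - j)`. -/
lemma abs_prod_half (m : ℕ) (hm : 1 ≤ m) :
    |∏ j ∈ Finset.range m, ((1 / 2 : ℝ) - j)| = (Nat.doubleFactorial (2 * m - 3) : ℝ) / 2 ^ m := by
  induction m with
  | zero => omega
  | succ m ih =>
    rcases Nat.eq_zero_or_pos m with rfl | hm'
    · norm_num [Nat.doubleFactorial]
    · rw [Finset.prod_range_succ, abs_mul, ih hm']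
      by_cases h : m = 1
      · subst h; norm_num [Nat.doubleFactorial]
      · have e : 2 * (m + 1) - 3 = (2 * m - 3) + 2 := by omega
        rw [e, Nat.doubleFactorial_add_two]
        have h1 : |(1 / 2 : ℝ) - m| = m - 1 / 2 := by
          rw [abs_sub_comm, abs_of_nonneg]
          have : (1 : ℝ) ≤ m := by exact_mod_cast hm'
          linarith
        have h2 : ((2 * m - 3 + 2 : ℕ) : ℝ) = 2 * m - 1 := by
          have : 2 * m - 3 + 2 = 2 * m - 1 := by omega
          rw [this, Nat.cast_sub (by omega)]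
          push_cast; ring
        rw [h1, Nat.cast_mul, h2]
        field_simp
        ring

/-- **Product inequality.**  If all sub-sums `x + ∑ (sub-list)` are squares, with `x > 0` and all
entries positive, then the product of the entries is at least `2^m x^{m - 1/2} / (2m-3)!!`. -/
theorem prod_ge (l : List ℝ) (hl : ∀ b ∈ l, 0 < b) (x : ℝ) (hx : 0 < x) (h : AllSq l x)
    (hm : 1 ≤ l.length) :
    2 ^ l.length * x ^ ((l.length : ℝ) - 1 / 2)
      ≤ (Nat.doubleFactorial (2 * l.length - 3) : ℝ) * l.prod := by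
  obtain ⟨n, hn⟩ := mdiff_sqrt_int l x h
  obtain ⟨ξ, hξ, hval⟩ := mdiff_rpow l hl (1 / 2) x hx
  have hξ0 : 0 < ξ := lt_of_lt_of_le hx hξ
  have hprod : 0 < l.prod := List.prod_pos (fun a ha => hl a ha)
  have hc := abs_prod_half l.length hm
  have hc0 : (∏ j ∈ Finset.range l.length, ((1 / 2 : ℝ) - j)) ≠ 0 := by
    intro h0
    rw [h0, abs_zero] at hc
    have : (0 : ℝ) < (Nat.doubleFactorial (2 * l.length - 3) : ℝ) / 2 ^ l.length := by
      have := Nat.doubleFactorial_pos (2 * l.length - 3)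
      positivity
    linarith
  have hne : (n : ℝ) ≠ 0 := by
    rw [← hn, hval]
    have := (Real.rpow_pos_of_pos hξ0 (1 / 2 - (l.length : ℝ))).ne'
    positivity
  have hge : (1 : ℝ) ≤ |(n : ℝ)| := by
    have : n ≠ 0 := by exact_mod_cast hne
    have h1 := Int.one_le_abs this
    exact_mod_cast h1
  rw [← hn, hval, abs_mul, abs_mul, hc, abs_of_pos hprod,
    abs_of_pos (Real.rpow_pos_of_pos hξ0 _)] at hge
  have hmono : ξ ^ (1 / 2 - (l.length : ℝ)) ≤ x ^ (1 / 2 - (l.length : ℝ)) := by
    apply Real.rpow_le_rpow_of_nonpos hx hξ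
    have : (1 : ℝ) ≤ l.length := by exact_mod_cast hm
    linarith
  have h2 : (1 : ℝ) ≤ (Nat.doubleFactorial (2 * l.length - 3) : ℝ) / 2 ^ l.length * l.prod
      * x ^ (1 / 2 - (l.length : ℝ)) := by
    refine hge.trans ?_
    apply mul_le_mul_of_nonneg_left hmono
    positivity
  have hx2 : x ^ ((l.length : ℝ) - 1 / 2) * x ^ (1 / 2 - (l.length : ℝ)) = 1 := by
    rw [← Real.rpow_add hx]
    simp
  have hp2 : (0 : ℝ) < 2 ^ l.length := by positivity
  have hxp : 0 < x ^ ((l.length : ℝ) - 1 / 2) := Real.rpow_pos_of_pos hx _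
  calc 2 ^ l.length * x ^ ((l.length : ℝ) - 1 / 2)
      = 2 ^ l.length * x ^ ((l.length : ℝ) - 1 / 2) * 1 := by ring
    _ ≤ 2 ^ l.length * x ^ ((l.length : ℝ) - 1 / 2)
        * ((Nat.doubleFactorial (2 * l.length - 3) : ℝ) / 2 ^ l.length * l.prod
      * x ^ (1 / 2 - (l.length : ℝ))) := by
        apply mul_le_mul_of_nonneg_left h2
        positivity
    _ = (Nat.doubleFactorial (2 * l.length - 3) : ℝ) * l.prod
        * (x ^ ((l.length : ℝ) - 1 / 2) * x ^ (1 / 2 - (l.length : ℝ))) := by
        field_simp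
    _ = _ := by rw [hx2, mul_one]

end Pool.H10.HC
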