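import Mathlib
import Pool.Agent.H10.HC.MDiff

/-!
# Few generators of a Hilbert cube in the squares are small
-/

namespace Pool.H10.HC

open Finset

lemma allSq_of_finset {ι : Type*} [DecidableEq ι] (c : ι → ℤ) (L : List ι) (hL : L.Nodup) (x : ℤ)
    (h : ∀ T : Finset ι, T ⊆ L.toFinset → IsSquare (x + ∑ i ∈ T, c i)) :
    AllSq (L.map (fun i => (c i : ℝ))) (x : ℝ) := by
  induction L generalizing x with
  | nil =>
    obtain ⟨n, hn⟩ := h ∅ (by simp)
    refine ⟨n, ?_⟩
    simp only [Finset.sum_empty, add_zero] at hn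
    rw [hn]; push_cast; ring
  | cons i L ih =>
    have hnd := List.nodup_cons.1 hL
    refine ⟨ih hnd.2 x (fun T hT => h T ?_), ?_⟩
    · intro j hj
      have := hT hj
      simp only [List.toFinset_cons, Finset.mem_insert]
      exact Or.inr this
    · have := ih hnd.2 (x + c i) (fun T hT => ?_)
      · push_cast at this
        exact this
      · have hi : i ∉ T := by
          intro hiT
          have := hT hiT
          rw [List.mem_toFinset] at this
          exact hnd.1 this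
        have h2 := h (insert i T) (by
          intro j hj
          rw [Finset.mem_insert] at hj
          rcases hj with rfl | hj
          · simp
          · have := hT hj
            simp only [List.toFinset_cons, Finset.mem_insert]
            exact Or.inr this)
        rw [Finset.sum_insert hi, ← add_assoc] at h2
        exact h2

/-- The product inequality for finset-indexed positive generators. -/
lemma prod_ge_finset {ι : Type*} [DecidableEq ι] (c : ι → ℤ) (S : Finset ι)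
    (hc : ∀ i ∈ S, 0 < c i) (x : ℤ) (hx : 0 < x) (hS : 1 ≤ S.card)
    (h : ∀ T : Finset ι, T ⊆ S → IsSquare (x + ∑ i ∈ T, c i)) :
    2 ^ S.card * (x : ℝ) ^ ((S.card : ℝ) - 1 / 2)
      ≤ (Nat.doubleFactorial (2 * S.card - 3) : ℝ) * ∏ i ∈ S, (c i : ℝ) := by
  have h1 := prod_ge (S.toList.map (fun i => (c i : ℝ))) (by
    intro b hb
    rw [List.mem_map] at hb
    obtain ⟨i, hi, rfl⟩ := hb
    rw [Finset.mem_toList] at hi
    exact_mod_cast hc i hi) (x : ℝ) (by exact_mod_cast hx)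
    (allSq_of_finset c S.toList S.nodup_toList x (by simpa using h)) (by simpa using hS)
  simp only [List.length_map, Finset.length_toList] at h1
  rw [Finset.prod_map_toList] at h1
  exact h1

/-- The lower vertex, in the directions of `S`, of the subcube through the vertex `s₀`. -/
lemma lower_vertex {d : ℕ} (a : ℤ) (b : Fin d → ℤ)
    (h : ∀ s : Finset (Fin d), IsSquare (a + ∑ i ∈ s, b i)) (s₀ S : Finset (Fin d)) :
    ∃ x : ℤ, (a + ∑ i ∈ s₀, b i) ≤ x + ∑ i ∈ S, |b i| ∧
      ∀ T : Finset (Fin d), T ⊆ S → IsSquare (x + ∑ i ∈ T, |b i|) := by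
  refine ⟨a + ∑ i ∈ s₀ \ S, b i + ∑ i ∈ S, min (b i) 0, ?_, ?_⟩
  · have h1 : ∑ i ∈ s₀, b i = ∑ i ∈ s₀ \ S, b i + ∑ i ∈ s₀ ∩ S, b i := by
      rw [add_comm, Finset.sum_inter_add_sum_sdiff]
    have h2 : ∑ i ∈ s₀ ∩ S, b i ≤ ∑ i ∈ S, (min (b i) 0 + |b i|) := by
      calc ∑ i ∈ s₀ ∩ S, b i ≤ ∑ i ∈ s₀ ∩ S, (min (b i) 0 + |b i|) := by
            apply Finset.sum_le_sum
            intro i _
            rcases le_total (b i) 0 with hb | hb
            · rw [min_eq_left hb, abs_of_nonpos hb]; linarith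
            · rw [min_eq_right hb, abs_of_nonneg hb]; linarith
        _ ≤ _ := by
            apply Finset.sum_le_sum_of_subset_of_nonneg Finset.inter_subset_right
            intro i _ _
            rcases le_total (b i) 0 with hb | hb
            · rw [min_eq_left hb, abs_of_nonpos hb]; linarith
            · rw [min_eq_right hb, abs_of_nonneg hb]; linarith
    rw [Finset.sum_add_distrib] at h2
    linarith
  · intro T hT
    set U : Finset (Fin d) := (s₀ \ S) ∪ S.filter (fun i => (b i < 0 ∧ i ∉ T) ∨ (0 ≤ b i ∧ i ∈ T))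
      with hU
    have hdisj : Disjoint (s₀ \ S)
        (S.filter (fun i => (b i < 0 ∧ i ∉ T) ∨ (0 ≤ b i ∧ i ∈ T))) := by
      rw [Finset.disjoint_left]
      intro i hi hi'
      rw [Finset.mem_sdiff] at hi
      exact hi.2 (Finset.mem_of_mem_filter i hi')
    have h1 : ∑ i ∈ T, |b i| = ∑ i ∈ S, if i ∈ T then |b i| else 0 := by
      rw [Finset.sum_ite_mem, Finset.inter_eq_right.2 hT]
    have h2 : ∑ i ∈ U, b i = ∑ i ∈ s₀ \ S, b i + (∑ i ∈ S, min (b i) 0 + ∑ i ∈ T, |b i|) := by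
      rw [hU, Finset.sum_union hdisj, Finset.sum_filter, h1, ← Finset.sum_add_distrib]
      congr 1
      apply Finset.sum_congr rfl
      intro i _
      by_cases hiT : i ∈ T
      · rcases lt_or_ge (b i) 0 with hb | hb
        · rw [if_neg (by push Not; exact ⟨fun _ => hiT, fun h => absurd h (by omega)⟩), if_pos hiT,
            min_eq_left hb.le, abs_of_neg hb]
          ring
        · rw [if_pos (Or.inr ⟨hb, hiT⟩), if_pos hiT, min_eq_right hb, abs_of_nonneg hb]
          ring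
      · rcases lt_or_ge (b i) 0 with hb | hb
        · rw [if_pos (Or.inl ⟨hb, hiT⟩), if_neg hiT, min_eq_left hb.le]
          ring
        · rw [if_neg (by push Not; exact ⟨fun h => absurd h (by omega), fun _ => hiT⟩), if_neg hiT,
            min_eq_right hb]
          ring
    have h3 := h U
    rw [h2] at h3
    convert h3 using 1
    ring

lemma sq_gap (n m w : ℤ) (hw : 0 < w) (h : w ^ 2 ≤ n * n) (hm : m * m = n * n + w) : False := by
  have h1 : w ≤ |n| := by
    by_contra hlt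
    push Not at hlt
    have h0 := abs_nonneg n
    have : |n| * |n| < w * w := by nlinarith
    rw [abs_mul_abs_self] at this
    nlinarith
  have h2 : |n| < |m| := by
    by_contra hle
    push Not at hle
    have h0 := abs_nonneg m
    have : |m| * |m| ≤ |n| * |n| := by nlinarith
    rw [abs_mul_abs_self, abs_mul_abs_self] at this
    linarith
  have h3 : (|n| + 1) * (|n| + 1) ≤ |m| * |m| := by
    have h0 := abs_nonneg n
    nlinarith
  have e1 := abs_mul_abs_self n
  have e2 := abs_mul_abs_self m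
  nlinarith

/-- A value `v` is repeated at most `|v|` times among the generators. -/
lemma card_eq_value {d : ℕ} (a : ℤ) (b : Fin d → ℤ)
    (h : ∀ s : Finset (Fin d), IsSquare (a + ∑ i ∈ s, b i)) (v : ℤ) (hv : v ≠ 0) :
    ((Finset.univ.filter fun i => b i = v).card : ℤ) ≤ |v| := by
  by_contra hlt
  push Not at hlt
  set F := Finset.univ.filter fun i => b i = v with hF
  have key : ∀ j : ℕ, j ≤ F.card → IsSquare (a + j * v) := by
    intro j hj
    obtain ⟨T, hT, hTc⟩ := Finset.exists_subset_card_eq hj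
    have h1 := h T
    have h2 : ∑ i ∈ T, b i = j * v := by
      rw [Finset.sum_congr rfl (fun i hi => (Finset.mem_filter.1 (hT hi)).2), Finset.sum_const, hTc]
      simp
    rwa [h2] at h1
  obtain ⟨w, hw⟩ : ∃ w : ℕ, (w : ℤ) = |v| := ⟨v.natAbs, by simp⟩
  have hwF : w + 1 ≤ F.card := by
    rw [← hw] at hlt
    exact_mod_cast hlt
  have hw0 : (0 : ℤ) < |v| := abs_pos.2 hv
  rcases lt_or_gt_of_ne hv with hneg | hpos
  · obtain ⟨m, hm⟩ := key 0 (by omega)
    obtain ⟨n, hn⟩ := key 1 (by omega)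
    have hK := (key (w + 1) hwF)
    have hK0 : 0 ≤ a + ((w + 1 : ℕ) : ℤ) * v := hK.nonneg
    push_cast at hK0 hm hn
    rw [hw] at hK0
    rw [abs_of_neg hneg] at hK0 hw0
    apply sq_gap n m (-v) (by linarith)
    · rw [← hn]; nlinarith
    · rw [← hm, ← hn]; ring
  · obtain ⟨n, hn⟩ := key w (by omega)
    obtain ⟨m, hm⟩ := key (w + 1) hwF
    have hK0 : 0 ≤ a + ((0 : ℕ) : ℤ) * v := (key 0 (by omega)).nonneg
    push_cast at hK0 hm hn
    rw [hw] at hn hm
    rw [abs_of_pos hpos] at hn hm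
    apply sq_gap n m v hpos
    · rw [← hn]; nlinarith
    · rw [← hm, ← hn]; ring

/-- At most `B (2B+1)` generators have absolute value at most `B`. -/
lemma card_abs_le {d : ℕ} (a : ℤ) (b : Fin d → ℤ) (hb : ∀ i, b i ≠ 0)
    (h : ∀ s : Finset (Fin d), IsSquare (a + ∑ i ∈ s, b i)) (B : ℕ) :
    (Finset.univ.filter fun i => |b i| ≤ (B : ℤ)).card ≤ B * (2 * B + 1) := by
  have hcard : (Finset.Icc (-(B : ℤ)) B).card = 2 * B + 1 := by
    rw [Int.card_Icc]; omega
  rw [← hcard]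
  apply Finset.card_le_mul_card_image_of_maps_to (f := b)
  · intro i hi
    rw [Finset.mem_filter] at hi
    rw [Finset.mem_Icc]
    exact abs_le.1 hi.2
  · intro v hv
    rw [Finset.mem_Icc] at hv
    by_cases hv0 : v = 0
    · subst hv0
      have : ((Finset.univ.filter fun i => |b i| ≤ (B : ℤ)).filter fun i => b i = 0) = ∅ := by
        apply Finset.filter_eq_empty_iff.2
        intro i _
        exact hb i
      rw [this]; simp
    · have h1 := card_eq_value a b h v hv0
      have h2 : ((Finset.univ.filter fun i => |b i| ≤ (B : ℤ)).filter fun i => b i = v).card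
          ≤ (Finset.univ.filter fun i => b i = v).card := by
        apply Finset.card_le_card
        apply Finset.filter_subset_filter
        exact Finset.filter_subset _ _
      have h3 : |v| ≤ B := abs_le.2 hv
      have h4 : ((Finset.univ.filter fun i => b i = v).card : ℤ) ≤ B := le_trans h1 h3
      have h5 : (Finset.univ.filter fun i => b i = v).card ≤ B := by exact_mod_cast h4
      exact le_trans h2 h5

/-- The threshold beyond which fewer than `k` generators can be small. -/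
lemma exists_threshold (η : ℝ) (hη : 0 < η) (k : ℕ) (hk : 1 / (2 * η) < k) :
    ∃ A₀ : ℝ, 1 ≤ A₀ ∧ ∀ M : ℝ, A₀ ≤ M → (k : ℝ) * M ^ (1 - η) ≤ M / 2 ∧
      (Nat.doubleFactorial (2 * k - 3) : ℝ) * (M ^ (1 - η)) ^ k
        < 2 ^ k * (M / 2) ^ ((k : ℝ) - 1 / 2) := by
  set C : ℝ := (Nat.doubleFactorial (2 * k - 3) : ℝ) with hC
  have hk1 : (1 : ℝ) ≤ k := by
    have h0 : 0 < 1 / (2 * η) := by positivity
    have h1 : (0 : ℝ) < k := lt_trans h0 hk
    have h2 : 0 < k := by exact_mod_cast h1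
    exact_mod_cast h2
  have hexp : 0 < η * k - 1 / 2 := by
    rw [div_lt_iff₀ (by positivity)] at hk
    linarith
  have e1 : ∀ᶠ M : ℝ in Filter.atTop, (2 : ℝ) * k ≤ M ^ η :=
    (tendsto_rpow_atTop hη).eventually_ge_atTop _
  have e2 : ∀ᶠ M : ℝ in Filter.atTop, C < M ^ (η * k - 1 / 2) :=
    (tendsto_rpow_atTop hexp).eventually_gt_atTop _
  obtain ⟨A, hA⟩ := Filter.eventually_atTop.1 (e1.and e2)
  refine ⟨max A 1, le_max_right _ _, ?_⟩
  intro M hM
  have hM1 : 1 ≤ M := le_trans (le_max_right _ _) hM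
  have hM0 : 0 < M := by linarith
  obtain ⟨h1, h2⟩ := hA M (le_trans (le_max_left _ _) hM)
  constructor
  · have h3 : M ^ (1 - η) * M ^ η = M := by
      rw [← Real.rpow_add hM0]; simp
    have h4 : 0 < M ^ (1 - η) := Real.rpow_pos_of_pos hM0 _
    nlinarith
  · have h3 : (M ^ (1 - η)) ^ k = M ^ ((1 - η) * k) := by
      rw [Real.rpow_mul hM0.le, Real.rpow_natCast]
    have h4 : 0 < M ^ ((1 - η) * k) := Real.rpow_pos_of_pos hM0 _
    have h5 : M ^ (η * k - 1 / 2) * M ^ ((1 - η) * k) = M ^ ((k : ℝ) - 1 / 2) := by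
      rw [← Real.rpow_add hM0]; congr 1; ring
    have h6 : M ^ ((k : ℝ) - 1 / 2) ≤ 2 ^ k * (M / 2) ^ ((k : ℝ) - 1 / 2) := by
      rw [Real.div_rpow hM0.le (by norm_num)]
      have h7 : (2 : ℝ) ^ ((k : ℝ) - 1 / 2) ≤ 2 ^ k := by
        rw [← Real.rpow_natCast]
        apply Real.rpow_le_rpow_of_exponent_le (by norm_num)
        linarith
      have h8 : (0 : ℝ) < 2 ^ ((k : ℝ) - 1 / 2) := Real.rpow_pos_of_pos (by norm_num) _
      have h9 : 0 < M ^ ((k : ℝ) - 1 / 2) := Real.rpow_pos_of_pos hM0 _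
      rw [mul_div_assoc', le_div_iff₀ h8]
      nlinarith
    rw [h3]
    calc C * M ^ ((1 - η) * k) < M ^ (η * k - 1 / 2) * M ^ ((1 - η) * k) := by
          apply mul_lt_mul_of_pos_right h2 h4
      _ = M ^ ((k : ℝ) - 1 / 2) := h5
      _ ≤ _ := h6

/-- Beyond the threshold, fewer than `k` generators are small. -/
lemma card_lt (η : ℝ) (k : ℕ) (hk1 : 1 ≤ k) (M : ℝ)
    (hM : 1 ≤ M) (h1 : (k : ℝ) * M ^ (1 - η) ≤ M / 2)
    (h2 : (Nat.doubleFactorial (2 * k - 3) : ℝ) * (M ^ (1 - η)) ^ k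
        < 2 ^ k * (M / 2) ^ ((k : ℝ) - 1 / 2))
    (d : ℕ) (a : ℤ) (b : Fin d → ℤ) (hb : ∀ i, b i ≠ 0)
    (h : ∀ s : Finset (Fin d), IsSquare (a + ∑ i ∈ s, b i)) (s₀ : Finset (Fin d))
    (hMs : ((a + ∑ i ∈ s₀, b i : ℤ) : ℝ) = M) :
    (Finset.univ.filter fun i => |(b i : ℝ)| ≤ M ^ (1 - η)).card < k := by
  by_contra hge
  push Not at hge
  obtain ⟨S, hS, hSc⟩ := Finset.exists_subset_card_eq hge
  obtain ⟨x, hx, hxT⟩ := lower_vertex a b h s₀ S
  have hM0 : 0 < M := by linarith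
  have hsmall : ∀ i ∈ S, ((|b i| : ℤ) : ℝ) ≤ M ^ (1 - η) := by
    intro i hi
    have := (Finset.mem_filter.1 (hS hi)).2
    rwa [Int.cast_abs]
  have hsum : ((∑ i ∈ S, |b i| : ℤ) : ℝ) ≤ M / 2 := by
    rw [Int.cast_sum]
    calc ∑ i ∈ S, ((|b i| : ℤ) : ℝ) ≤ ∑ i ∈ S, M ^ (1 - η) := Finset.sum_le_sum hsmall
      _ = (k : ℝ) * M ^ (1 - η) := by rw [Finset.sum_const, hSc, nsmul_eq_mul]
      _ ≤ _ := h1
  have hxM : M / 2 ≤ (x : ℝ) := by
    have h3 : ((a + ∑ i ∈ s₀, b i : ℤ) : ℝ) ≤ ((x + ∑ i ∈ S, |b i| : ℤ) : ℝ) := by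
      exact_mod_cast hx
    rw [hMs, Int.cast_add] at h3
    linarith
  have hx0 : 0 < x := by
    have : (0 : ℝ) < x := by linarith
    exact_mod_cast this
  have h4 := prod_ge_finset (fun i => |b i|) S (fun i _ => abs_pos.2 (hb i)) x hx0
    (by rw [hSc]; exact hk1) hxT
  rw [hSc] at h4
  have h5 : ∏ i ∈ S, ((|b i| : ℤ) : ℝ) ≤ (M ^ (1 - η)) ^ k := by
    rw [← hSc, ← Finset.prod_const]
    apply Finset.prod_le_prod
    · intro i _
      positivity
    · exact hsmall
  have h6 : (M / 2) ^ ((k : ℝ) - 1 / 2) ≤ (x : ℝ) ^ ((k : ℝ) - 1 / 2) := by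
    apply Real.rpow_le_rpow (by linarith) hxM
    have : (1 : ℝ) ≤ k := by exact_mod_cast hk1
    linarith
  have h7 : (0 : ℝ) ≤ (Nat.doubleFactorial (2 * k - 3) : ℝ) := by positivity
  have h8 : (2 : ℝ) ^ k * (M / 2) ^ ((k : ℝ) - 1 / 2)
      ≤ (Nat.doubleFactorial (2 * k - 3) : ℝ) * (M ^ (1 - η)) ^ k := by
    calc (2 : ℝ) ^ k * (M / 2) ^ ((k : ℝ) - 1 / 2) ≤ 2 ^ k * (x : ℝ) ^ ((k : ℝ) - 1 / 2) := by
          apply mul_le_mul_of_nonneg_left h6; positivity
      _ ≤ _ := h4
      _ ≤ _ := mul_le_mul_of_nonneg_left h5 h7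
  linarith

theorem main (η : ℝ) (hη : 0 < η) :
    ∃ (M₀ : ℝ) (D : ℕ), ∀ (d : ℕ) (a : ℤ) (b : Fin d → ℤ), (∀ i, b i ≠ 0) →
      (∀ s : Finset (Fin d), IsSquare (a + ∑ i ∈ s, b i)) →
      ∀ s₀ : Finset (Fin d),
        (Finset.univ.filter fun i =>
          |(b i : ℝ)| ≤ ((a + ∑ i ∈ s₀, b i : ℤ) : ℝ) ^ (1 - η)).card ≤ D ∧
        (M₀ ≤ ((a + ∑ i ∈ s₀, b i : ℤ) : ℝ) →
          ((Finset.univ.filter fun i =>
            |(b i : ℝ)| ≤ ((a + ∑ i ∈ s₀, b i : ℤ) : ℝ) ^ (1 - η)).card : ℝ) ≤ 1 / (2 * η)) := by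
  set k : ℕ := ⌊1 / (2 * η)⌋₊ + 1 with hk
  have hpos : 0 < 1 / (2 * η) := by positivity
  have hk' : 1 / (2 * η) < k := by
    rw [hk]; push_cast; exact Nat.lt_floor_add_one _
  obtain ⟨A₀, hA1, hA⟩ := exists_threshold η hη k hk'
  set B : ℕ := ⌈A₀⌉₊ with hB
  have hBA : A₀ ≤ B := Nat.le_ceil A₀
  refine ⟨A₀, max (k - 1) (B * (2 * B + 1)), ?_⟩
  intro d a b hb h s₀
  set M : ℝ := ((a + ∑ i ∈ s₀, b i : ℤ) : ℝ) with hM
  have hbig : A₀ ≤ M →
      (Finset.univ.filter fun i => |(b i : ℝ)| ≤ M ^ (1 - η)).card < k := by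
    intro hMA
    obtain ⟨h1, h2⟩ := hA M hMA
    exact card_lt η k (by omega) M (by linarith) h1 h2 d a b hb h s₀ hM.symm
  constructor
  · by_cases hMA : A₀ ≤ M
    · have := hbig hMA
      exact le_trans (by omega) (le_max_left _ _)
    · push Not at hMA
      have hM0 : 0 ≤ M := by
        rw [hM]
        exact_mod_cast (h s₀).nonneg
      have hMB : M ^ (1 - η) ≤ B := by
        rcases le_or_gt 1 M with h1 | h1
        · calc M ^ (1 - η) ≤ M ^ (1 : ℝ) := by
                apply Real.rpow_le_rpow_of_exponent_le h1; linarith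
            _ = M := Real.rpow_one M
            _ ≤ A₀ := hMA.le
            _ ≤ B := hBA
        · have hM00 : M = 0 := by
            have h2 : (a + ∑ i ∈ s₀, b i : ℤ) < 1 := by
              have : ((a + ∑ i ∈ s₀, b i : ℤ) : ℝ) < 1 := h1
              exact_mod_cast this
            have h3 := (h s₀).nonneg
            have h4 : a + ∑ i ∈ s₀, b i = 0 := by omega
            rw [hM, h4]; simp
          rw [hM00]
          have : (0 : ℝ) ^ (1 - η) ≤ 1 := by
            by_cases h1 : 1 - η = 0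
            · rw [h1]; simp
            · rw [Real.zero_rpow h1]; norm_num
          linarith
      refine le_trans ?_ (le_trans (card_abs_le a b hb h B) (le_max_right _ _))
      apply Finset.card_le_card
      intro i hi
      rw [Finset.mem_filter] at hi ⊢
      refine ⟨Finset.mem_univ _, ?_⟩
      have h3 : |(b i : ℝ)| ≤ B := le_trans hi.2 hMB
      have h4 : ((|b i| : ℤ) : ℝ) ≤ ((B : ℤ) : ℝ) := by rw [Int.cast_abs]; push_cast; exact h3
      exact_mod_cast h4
  · intro hMA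
    have h1 := hbig hMA
    have h2 : (Finset.univ.filter fun i => |(b i : ℝ)| ≤ M ^ (1 - η)).card
        ≤ ⌊1 / (2 * η)⌋₊ := by omega
    calc ((Finset.univ.filter fun i => |(b i : ℝ)| ≤ M ^ (1 - η)).card : ℝ)
        ≤ (⌊1 / (2 * η)⌋₊ : ℝ) := by exact_mod_cast h2
      _ ≤ _ := Nat.floor_le hpos.le

end Pool.H10.HC
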